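import Mathlib

/-!
The maximal ergodic lemma (Garsia's proof) and almost everywhere convergence of Birkhoff averages
of bounded measurable functions.
-/

set_option autoImplicit false

open MeasureTheory Filter Set Topology

namespace Pool.Agent.Lib.Birkhoff

variable {α : Type*} [MeasurableSpace α] {μ : Measure α} {f : α → α}

theorem measurable_birkhoffSum (hf : Measurable f) {φ : α → ℝ} (hφ : Measurable φ) (n : ℕ) :
    Measurable (birkhoffSum f φ n) := by
  unfold birkhoffSum
  exact Finset.measurable_sum _ fun k _ => hφ.comp (hf.iterate k)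

theorem integrable_birkhoffSum (hf : MeasurePreserving f μ μ) {φ : α → ℝ} (hφ : Integrable φ μ)
    (n : ℕ) : Integrable (birkhoffSum f φ n) μ := by
  unfold birkhoffSum
  exact integrable_finsetSum _ fun k _ => (hf.iterate k).integrable_comp_of_integrable hφ

/-- The maximum of the Birkhoff sums of length at most `n` (including the empty sum). -/
noncomputable def bMax (f : α → α) (φ : α → ℝ) : ℕ → α → ℝ
  | 0 => fun _ => 0
  | n + 1 => fun x => max (bMax f φ n x) (birkhoffSum f φ (n + 1) x)

omit [MeasurableSpace α] in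
theorem bMax_nonneg (φ : α → ℝ) (n : ℕ) (x : α) : 0 ≤ bMax f φ n x := by
  induction n with
  | zero => exact le_rfl
  | succ n ih => exact ih.trans (le_max_left _ _)

omit [MeasurableSpace α] in
theorem bMax_mono (φ : α → ℝ) (x : α) : Monotone fun n => bMax f φ n x :=
  monotone_nat_of_le_succ fun _ => le_max_left _ _

omit [MeasurableSpace α] in
theorem le_bMax (φ : α → ℝ) (n : ℕ) (x : α) : birkhoffSum f φ n x ≤ bMax f φ n x := by
  cases n with
  | zero => simp [bMax]
  | succ n => exact le_max_right _ _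

omit [MeasurableSpace α] in
theorem bMax_le (φ : α → ℝ) (n : ℕ) (x : α) :
    bMax f φ n x ≤ max 0 (φ x + bMax f φ n (f x)) := by
  induction n with
  | zero => exact le_max_left _ _
  | succ n ih =>
    have h1 : bMax f φ n (f x) ≤ bMax f φ (n + 1) (f x) := le_max_left _ _
    refine max_le (ih.trans (max_le_max le_rfl (by linarith))) ?_
    refine le_trans ?_ (le_max_right _ _)
    rw [birkhoffSum_succ']
    have := le_bMax (f := f) φ n (f x)
    linarith

theorem measurable_bMax (hf : Measurable f) {φ : α → ℝ} (hφ : Measurable φ) (n : ℕ) :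
    Measurable (bMax f φ n) := by
  induction n with
  | zero => exact measurable_const
  | succ n ih => exact ih.max (measurable_birkhoffSum hf hφ _)

theorem integrable_bMax (hf : MeasurePreserving f μ μ) {φ : α → ℝ} (hφ : Integrable φ μ)
    (n : ℕ) : Integrable (bMax f φ n) μ := by
  induction n with
  | zero => exact integrable_zero _ _ _
  | succ n ih => exact ih.sup (integrable_birkhoffSum hf hφ _)

theorem setIntegral_comp_invariant (hf : MeasurePreserving f μ μ) {A : Set α}
    (hA : MeasurableSet A) (hinv : f ⁻¹' A = A) {g : α → ℝ} (hg : Measurable g) :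
    ∫ x in A, g (f x) ∂μ = ∫ x in A, g x ∂μ := by
  conv_rhs => rw [← hf.map_eq]
  rw [setIntegral_map hA hg.aestronglyMeasurable hf.measurable.aemeasurable, hinv]

/-- The maximal ergodic lemma on an invariant set. -/
theorem maximal (hf : MeasurePreserving f μ μ) {φ : α → ℝ} (hm : Measurable φ)
    (hφ : Integrable φ μ) {A : Set α} (hA : MeasurableSet A) (hinv : f ⁻¹' A = A)
    (hpos : ∀ x ∈ A, ∃ n, 0 < birkhoffSum f φ n x) : 0 ≤ ∫ x in A, φ x ∂μ := by
  let B : ℕ → Set α := fun n => A ∩ {x | 0 < bMax f φ n x}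
  have hBm : ∀ n, MeasurableSet (B n) := fun n =>
    hA.inter (measurableSet_lt measurable_const (measurable_bMax hf.measurable hm n))
  have hmono : Monotone B := fun m n hmn x hx => ⟨hx.1, hx.2.trans_le (bMax_mono φ x hmn)⟩
  have hU : ⋃ n, B n = A := by
    refine Subset.antisymm (iUnion_subset fun n => inter_subset_left) fun x hx => ?_
    obtain ⟨n, hn⟩ := hpos x hx
    exact mem_iUnion.2 ⟨n, hx, hn.trans_le (le_bMax φ n x)⟩
  have hlim := tendsto_setIntegral_of_monotone hBm hmono (hφ.integrableOn (s := ⋃ n, B n))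
  rw [hU] at hlim
  refine ge_of_tendsto' hlim fun n => ?_
  have hi := integrable_bMax hf hφ n
  have hi' : Integrable (fun x => bMax f φ n (f x)) μ := hf.integrable_comp_of_integrable hi
  have h1 : ∫ x in B n, (bMax f φ n x - bMax f φ n (f x)) ∂μ ≤ ∫ x in B n, φ x ∂μ := by
    refine setIntegral_mono_on (hi.sub hi').integrableOn hφ.integrableOn (hBm n) fun x hx => ?_
    have h2 := bMax_le (f := f) φ n x
    have h3 : 0 < bMax f φ n x := hx.2
    rcases le_max_iff.1 h2 with h | h <;> linarith
  rw [integral_sub hi.integrableOn hi'.integrableOn] at h1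
  have h2 : ∫ x in B n, bMax f φ n (f x) ∂μ ≤ ∫ x in A, bMax f φ n (f x) ∂μ :=
    setIntegral_mono_set hi'.integrableOn (Eventually.of_forall fun x => bMax_nonneg φ n _)
      (LE.le.eventuallyLE inter_subset_left)
  have h3 : ∫ x in B n, bMax f φ n x ∂μ = ∫ x in A, bMax f φ n x ∂μ := by
    refine (setIntegral_eq_of_subset_of_forall_sdiff_eq_zero hA inter_subset_left ?_).symm
    intro x hx
    refine le_antisymm (not_lt.1 fun h => hx.2 ⟨hx.1, h⟩) (bMax_nonneg φ n x)
  rw [setIntegral_comp_invariant hf hA hinv (measurable_bMax hf.measurable hm n)] at h2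
  linarith

/-- The points where the upper limit of the Birkhoff averages exceeds `b`. -/
def Up (f : α → α) (φ : α → ℝ) (b : ℝ) : Set α :=
  {x | ∃ c : ℚ, b < c ∧ ∃ᶠ n : ℕ in atTop, (c : ℝ) * n < birkhoffSum f φ n x}

theorem measurableSet_Up (hf : Measurable f) {φ : α → ℝ} (hφ : Measurable φ) (b : ℝ) :
    MeasurableSet (Up f φ b) := by
  have : Up f φ b = ⋃ c : ℚ, ⋃ _ : b < c, ⋂ N : ℕ, ⋃ n : ℕ, ⋃ _ : N ≤ n,
      {x | (c : ℝ) * n < birkhoffSum f φ n x} := by
    ext x
    simp [Up, frequently_atTop]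
  rw [this]
  exact MeasurableSet.iUnion fun c => MeasurableSet.iUnion fun _ => MeasurableSet.iInter fun N =>
    MeasurableSet.iUnion fun n => MeasurableSet.iUnion fun _ =>
      measurableSet_lt measurable_const (measurable_birkhoffSum hf hφ n)

theorem eventually_mul_le {c d : ℝ} (h : c < d) (K : ℝ) :
    ∀ᶠ n : ℕ in atTop, c * n + K ≤ d * n := by
  have h1 : Tendsto (fun n : ℕ => (d - c) * n) atTop atTop :=
    tendsto_natCast_atTop_atTop.const_mul_atTop (sub_pos.2 h)
  filter_upwards [h1.eventually_ge_atTop K] with n hn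
  linarith

omit [MeasurableSpace α] in
theorem preimage_Up (φ : α → ℝ) (b : ℝ) : f ⁻¹' Up f φ b = Up f φ b := by
  ext x
  constructor
  · rintro ⟨c, hc, h⟩
    obtain ⟨d, hd1, hd2⟩ := exists_rat_btwn hc
    refine ⟨d, hd1, ?_⟩
    have h1 := h.and_eventually (eventually_mul_le hd2 (d - φ x))
    rw [frequently_atTop] at h1 ⊢
    intro N
    obtain ⟨n, hn, h2, h3⟩ := h1 N
    refine ⟨n + 1, by omega, ?_⟩
    rw [birkhoffSum_succ']
    push_cast
    linarith
  · rintro ⟨c, hc, h⟩
    obtain ⟨d, hd1, hd2⟩ := exists_rat_btwn hc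
    refine ⟨d, hd1, ?_⟩
    have h1 := h.and_eventually (eventually_mul_le hd2 (φ x - d))
    rw [frequently_atTop] at h1 ⊢
    intro N
    obtain ⟨n, hn, h2, h3⟩ := h1 (N + 1)
    obtain ⟨m, rfl⟩ : ∃ m, n = m + 1 := ⟨n - 1, by omega⟩
    refine ⟨m, by omega, ?_⟩
    rw [birkhoffSum_succ'] at h2
    push_cast at h2 h3
    linarith

omit [MeasurableSpace α] in
theorem birkhoffSum_sub_const (φ : α → ℝ) (b : ℝ) (n : ℕ) (x : α) :
    birkhoffSum f (fun y => φ y - b) n x = birkhoffSum f φ n x - b * n := by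
  simp [birkhoffSum, Finset.sum_sub_distrib, mul_comm]

theorem le_setIntegral_of_subset_Up [IsFiniteMeasure μ] (hf : MeasurePreserving f μ μ)
    {φ : α → ℝ} (hm : Measurable φ) (hφ : Integrable φ μ) {A : Set α} (hA : MeasurableSet A)
    (hinv : f ⁻¹' A = A) {b : ℝ} (hsub : A ⊆ Up f φ b) :
    b * μ.real A ≤ ∫ x in A, φ x ∂μ := by
  have h := maximal hf (φ := fun y => φ y - b) (hm.sub_const b) (hφ.sub (integrable_const b))
    hA hinv (fun x hx => by
      obtain ⟨c, hc, h⟩ := hsub hx
      obtain ⟨n, hn⟩ := h.exists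
      refine ⟨n, ?_⟩
      rw [birkhoffSum_sub_const]
      have : b * n ≤ c * n := mul_le_mul_of_nonneg_right hc.le (Nat.cast_nonneg n)
      linarith)
  rw [integral_sub hφ.integrableOn (integrable_const b)] at h
  simp only [integral_const, MeasurableSet.univ, measureReal_restrict_apply, univ_inter,
    smul_eq_mul] at h
  linarith

/-- Birkhoff averages of a bounded measurable function converge almost everywhere. -/
theorem ae_tendsto [IsFiniteMeasure μ] (hf : MeasurePreserving f μ μ)
    {φ : α → ℝ} (hm : Measurable φ) {C : ℝ} (hC : ∀ x, |φ x| ≤ C) :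
    ∀ᵐ x ∂μ, ∃ c, Tendsto (fun n : ℕ => birkhoffSum f φ n x / n) atTop (𝓝 c) := by
  have hφ : Integrable φ μ :=
    Integrable.of_bound hm.aestronglyMeasurable C (Eventually.of_forall hC)
  have key : ∀ a b : ℚ, a < b → ∀ᵐ x ∂μ, x ∉ Up f φ b ∩ Up f (-φ) (-a) := by
    intro a b hab
    set A := Up f φ b ∩ Up f (-φ) (-a) with hAdef
    have hA : MeasurableSet A :=
      (measurableSet_Up hf.measurable hm b).inter (measurableSet_Up hf.measurable hm.neg _)
    have hinv : f ⁻¹' A = A := by rw [hAdef, preimage_inter, preimage_Up, preimage_Up]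
    have h1 := le_setIntegral_of_subset_Up hf hm hφ hA hinv inter_subset_left
    have h2 := le_setIntegral_of_subset_Up hf hm.neg hφ.neg hA hinv inter_subset_right
    simp only [Pi.neg_apply, integral_neg] at h2
    have hab' : (a : ℝ) < b := by exact_mod_cast hab
    have h3 : μ.real A = 0 := by
      have h4 : 0 ≤ μ.real A := measureReal_nonneg
      nlinarith
    rw [measureReal_eq_zero_iff] at h3
    exact measure_eq_zero_iff_ae_notMem.1 h3
  have key' : ∀ᵐ x ∂μ, ∀ a b : ℚ, a < b → x ∉ Up f φ b ∩ Up f (-φ) (-a) := by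
    rw [ae_all_iff]
    intro a
    rw [ae_all_iff]
    intro b
    by_cases hab : a < b
    · filter_upwards [key a b hab] with x hx _ using hx
    · exact Eventually.of_forall fun x h => (hab h).elim
  filter_upwards [key'] with x hx
  have hb : ∀ n : ℕ, |birkhoffSum f φ n x / n| ≤ max C 0 := by
    intro n
    rcases Nat.eq_zero_or_pos n with rfl | hn
    · simp
    have hn' : (0 : ℝ) < n := by exact_mod_cast hn
    rw [abs_div, abs_of_pos hn', div_le_iff₀ hn']
    calc |birkhoffSum f φ n x| ≤ ∑ k ∈ Finset.range n, |φ (f^[k] x)| :=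
          Finset.abs_sum_le_sum_abs _ _
      _ ≤ ∑ k ∈ Finset.range n, max C 0 :=
          Finset.sum_le_sum fun k _ => (hC _).trans (le_max_left _ _)
      _ = max C 0 * n := by simp [mul_comm]
  refine tendsto_of_no_upcrossings (s := range ((↑) : ℚ → ℝ)) Rat.denseRange_cast ?_
    (isBoundedUnder_of ⟨max C 0, fun n => (abs_le.1 (hb n)).2⟩)
    (isBoundedUnder_of ⟨-max C 0, fun n => (abs_le.1 (hb n)).1⟩)
  rintro _ ⟨a, rfl⟩ _ ⟨b, rfl⟩ hab ⟨h1, h2⟩
  have hab' : a < b := by exact_mod_cast hab
  obtain ⟨a', ha', hb'⟩ := exists_between hab'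
  obtain ⟨b', hab'', hb''⟩ := exists_between hb'
  refine hx a' b' hab'' ⟨⟨b, by exact_mod_cast hb'', ?_⟩, ⟨-a, ?_, ?_⟩⟩
  · refine (h2.and_eventually (eventually_gt_atTop 0)).mono fun n hn => ?_
    have hn' : (0 : ℝ) < n := by exact_mod_cast hn.2
    exact (lt_div_iff₀ hn').1 hn.1
  · push_cast
    exact neg_lt_neg (by exact_mod_cast ha')
  · refine (h1.and_eventually (eventually_gt_atTop 0)).mono fun n hn => ?_
    have hn' : (0 : ℝ) < n := by exact_mod_cast hn.2
    have := (div_lt_iff₀ hn').1 hn.1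
    rw [birkhoffSum_neg]
    push_cast
    linarith

/-- If the integral over every invariant set of positive measure is negative, then the limits of
the Birkhoff averages are negative almost everywhere. -/
theorem ae_limit_neg [IsFiniteMeasure μ] (hf : MeasurePreserving f μ μ)
    {φ : α → ℝ} (hm : Measurable φ) (hφ : Integrable φ μ)
    (hneg : ∀ A, MeasurableSet A → f ⁻¹' A = A → μ A ≠ 0 → ∫ x in A, φ x ∂μ < 0) :
    ∀ᵐ x ∂μ, ∀ c, Tendsto (fun n : ℕ => birkhoffSum f φ n x / n) atTop (𝓝 c) → c < 0 := by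
  set A := ⋂ k : ℕ, Up f φ (-(1 / ((k : ℝ) + 1))) with hAdef
  have hA : MeasurableSet A := MeasurableSet.iInter fun k => measurableSet_Up hf.measurable hm _
  have hinv : f ⁻¹' A = A := by
    rw [hAdef, preimage_iInter]
    exact iInter_congr fun k => preimage_Up _ _
  have h0 : 0 ≤ ∫ x in A, φ x ∂μ := by
    have h1 : Tendsto (fun k : ℕ => -(1 / ((k : ℝ) + 1)) * μ.real A) atTop (𝓝 (-0 * μ.real A)) :=
      (tendsto_one_div_add_atTop_nhds_zero_nat.neg).mul_const _
    simp only [neg_zero, zero_mul] at h1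
    exact le_of_tendsto' h1 fun k =>
      le_setIntegral_of_subset_Up hf hm hφ hA hinv (iInter_subset _ k)
  have h2 : μ A = 0 := by
    by_contra h
    exact (hneg A hA hinv h).not_ge h0
  filter_upwards [measure_eq_zero_iff_ae_notMem.1 h2] with x hx c hc
  by_contra hc0
  apply hx
  refine mem_iInter.2 fun k => ?_
  have hk : -(1 / ((k : ℝ) + 1)) < 0 := by
    have : (0 : ℝ) < 1 / ((k : ℝ) + 1) := by positivity
    linarith
  obtain ⟨d, hd1, hd2⟩ := exists_rat_btwn hk
  refine ⟨d, hd1, Eventually.frequently ?_⟩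
  filter_upwards [hc.eventually (lt_mem_nhds (hd2.trans_le (not_lt.1 hc0))),
    eventually_gt_atTop 0] with n hn hn0
  have hn' : (0 : ℝ) < n := by exact_mod_cast hn0
  exact (lt_div_iff₀ hn').1 hn

end Pool.Agent.Lib.Birkhoff
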